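import Pool.Agent.H7.KSAT.S1Defs

/-!
# Saturation along a plane: proof
-/

set_option autoImplicit false

namespace Pool.KSAT

open Finset Real
open Pool.Agent.H49.Ent Pool.Agent.H32.Dense Pool.STK Pool.KA

variable {m J : ℕ}

/-- The elapsed time in the window. -/
lemma quo_time (F : Fam m J) {w K : ℕ} (h : w + K ≤ J) (ω : F.Ω) :
    0 ≤ F.t ω - (F.T1 w ω : ℝ) / 2 ^ w ∧ F.t ω - (F.T1 w ω : ℝ) / 2 ^ w ≤ 1 / 2 ^ w := by
  have h1 := T1_real F (show w ≤ J by omega) ω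
  have h2 : (0 : ℝ) < 2 ^ w := by positivity
  have e : 2 ^ w * (F.t ω - (F.T1 w ω : ℝ) / 2 ^ w) = 2 ^ w * F.t ω - F.T1 w ω := by
    field_simp
  constructor
  · by_contra hc
    push Not at hc
    have := mul_neg_of_pos_of_neg h2 hc
    linarith [h1.1]
  · rw [le_div_iff₀ h2]
    linarith [h1.2]

/-- The label of the flat is nearly determined by the position. -/
lemma quo_close (F : Fam m J) {β : Type} (b : F.Ω → β) {w K h k' : ℕ} (hwK : w + K ≤ J)
    (hhK : h ≤ K) (Q : β → Fin k' → Fin m → ℝ) (q : β → Fin k' → ℝ)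
    (hQ : ∀ β' i j, |Q β' i j| ≤ 1)
    (hq : ∀ ω, 0 < F.p ω → ∀ i, |∑ j, Q (b ω) i j * F.d ω j - q (b ω) i| ≤ 1 / 2 ^ h)
    {ω ω' : F.Ω} (h1 : 0 < F.p ω) (h2 : 0 < F.p ω') (hb : b ω = b ω')
    (hT : F.T1 (w + K) ω = F.T1 (w + K) ω') (hX : F.X (w + h) ω = F.X (w + h) ω')
    (i : Fin k') :
    |((qlab F b w h Q ω i - qlab F b w h Q ω' i : ℤ) : ℝ)| ≤ 2 * m + 4 := by
  have hm : (0 : ℝ) ≤ m := Nat.cast_nonneg m
  have hw1 : F.T1 w ω = F.T1 w ω' := by rw [T1_div F hwK, T1_div F hwK, hT]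
  obtain ⟨s1, s2⟩ := quo_time F hwK ω
  obtain ⟨s3, s4⟩ := quo_time F hwK ω'
  have a1 := T1_real F hwK ω
  have a2 := T1_real F hwK ω'
  rw [← hT] at a2
  rw [← hw1] at s3 s4
  set s : ℝ := F.t ω - (F.T1 w ω : ℝ) / 2 ^ w with hs
  set s' : ℝ := F.t ω' - (F.T1 w ω : ℝ) / 2 ^ w with hs'
  set P : ℝ := (2 : ℝ) ^ (w + h) with hP
  have hP0 : 0 < P := by positivity
  have hWP : (1 : ℝ) / 2 ^ w * (1 / 2 ^ h) = 1 / P := by
    rw [hP, pow_add]
    field_simp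
  have hw0 : (0 : ℝ) < 1 / 2 ^ w := by positivity
  have hh0 : (0 : ℝ) < 1 / 2 ^ h := by positivity
  -- the difference of the elapsed times
  have hss : |s - s'| ≤ 1 / P := by
    have e1 : s - s' = F.t ω - F.t ω' := by
      rw [hs, hs']
      ring
    have e2 : |2 ^ (w + K) * (F.t ω - F.t ω')| ≤ 1 := by
      rw [abs_le]
      constructor <;> linarith [a1.1, a1.2, a2.1, a2.2]
    have e3 : (0 : ℝ) < 2 ^ (w + K) := by positivity
    rw [abs_mul, abs_of_pos e3] at e2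
    rw [e1]
    have e4 : P ≤ 2 ^ (w + K) := pow_le_pow_right₀ (by norm_num) (by omega)
    rw [le_div_iff₀ hP0]
    calc |F.t ω - F.t ω'| * P ≤ |F.t ω - F.t ω'| * 2 ^ (w + K) :=
          mul_le_mul_of_nonneg_left e4 (abs_nonneg _)
      _ ≤ 1 := by linarith
  -- the positions
  have hxx : ∀ j, |F.x ω j - F.x ω' j| ≤ 1 / P := by
    intro j
    have r1 := rd_le (r := w + h) (x := F.x ω) j
    have r2 := rd_le (r := w + h) (x := F.x ω') j
    have r3 : fl (w + h) (F.x ω) j = fl (w + h) (F.x ω') j := congrFun hX j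
    rw [r3] at r1
    have e2 : |P * (F.x ω j - F.x ω' j)| ≤ 1 := by
      rw [abs_le]
      constructor <;> linarith [r1.1, r1.2, r2.1, r2.2]
    rw [abs_mul, abs_of_pos hP0] at e2
    rw [le_div_iff₀ hP0]
    linarith
  have hsumle : ∀ (c v : Fin m → ℝ) (M : ℝ), (∀ j, |c j| ≤ 1) → (∀ j, |v j| ≤ M) →
      |∑ j, c j * v j| ≤ m * M := by
    intro c v M hc hv
    calc |∑ j, c j * v j| ≤ ∑ j, |c j * v j| := Finset.abs_sum_le_sum_abs _ _
      _ ≤ ∑ _j : Fin m, M := Finset.sum_le_sum fun j _ => by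
          rw [abs_mul]
          calc |c j| * |v j| ≤ 1 * M :=
                mul_le_mul (hc j) (hv j) (abs_nonneg _) (by norm_num)
            _ = M := one_mul M
      _ = m * M := by simp
  set A : ℝ := ∑ j, Q (b ω) i j * F.d ω j with hA
  set A' : ℝ := ∑ j, Q (b ω) i j * F.d ω' j with hA'
  set κ : ℝ := q (b ω) i with hκ
  have q1 : |A - κ| ≤ 1 / 2 ^ h := hq ω h1 i
  have q2 : |A' - κ| ≤ 1 / 2 ^ h := by
    have := hq ω' h2 i
    rw [← hb] at this
    exact this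
  have hA1 : |A| ≤ m := by
    have := hsumle (Q (b ω) i) (F.d ω) 1 (hQ (b ω) i) (F.dir ω)
    rwa [mul_one] at this
  have hh1 : (1 : ℝ) / 2 ^ h ≤ 1 := by
    rw [div_le_one (by positivity)]
    exact one_le_pow₀ (by norm_num)
  have hκ1 : |κ| ≤ m + 1 := by
    have : |κ| ≤ |A| + |A - κ| := by
      have e : κ = A - (A - κ) := by ring
      calc |κ| = |A - (A - κ)| := by rw [← e]
        _ ≤ |A| + |A - κ| := abs_sub _ _
    linarith
  have hx1 : ∀ (ω'' : F.Ω) (j : Fin m), F.x1 w ω'' j =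
      F.x ω'' j - (F.t ω'' - (F.T1 w ω'' : ℝ) / 2 ^ w) * F.d ω'' j := by
    intro ω'' j
    unfold Fam.x1 Fam.x
    ring
  have hsum : ∑ j, Q (b ω) i j * F.x1 w ω j - ∑ j, Q (b ω') i j * F.x1 w ω' j =
      ∑ j, Q (b ω) i j * (F.x ω j - F.x ω' j) - (s * (A - κ) - s' * (A' - κ) + (s - s') * κ) := by
    rw [← hb]
    simp only [hx1, ← hw1]
    rw [← hs, ← hs', hA, hA']
    simp only [mul_sub, Finset.sum_sub_distrib]
    rw [Finset.mul_sum, Finset.mul_sum]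
    have e1 : ∑ j, Q (b ω) i j * (s * F.d ω j) = ∑ j, s * (Q (b ω) i j * F.d ω j) :=
      Finset.sum_congr rfl fun j _ => by ring
    have e2 : ∑ j, Q (b ω) i j * (s' * F.d ω' j) = ∑ j, s' * (Q (b ω) i j * F.d ω' j) :=
      Finset.sum_congr rfl fun j _ => by ring
    rw [e1, e2]
    ring
  have hb1 : |∑ j, Q (b ω) i j * F.x1 w ω j - ∑ j, Q (b ω') i j * F.x1 w ω' j| ≤
      (2 * m + 3) * (1 / P) := by
    rw [hsum]
    have t1 := hsumle (Q (b ω) i) (fun j => F.x ω j - F.x ω' j) (1 / P) (hQ (b ω) i) hxx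
    have t2 : |s * (A - κ)| ≤ 1 / P := by
      rw [abs_mul, ← hWP]
      exact mul_le_mul (by rw [abs_of_nonneg s1]; exact s2) q1 (abs_nonneg _) hw0.le
    have t3 : |s' * (A' - κ)| ≤ 1 / P := by
      rw [abs_mul, ← hWP]
      exact mul_le_mul (by rw [abs_of_nonneg s3]; exact s4) q2 (abs_nonneg _) hw0.le
    have t4 : |(s - s') * κ| ≤ (1 / P) * (m + 1) := by
      rw [abs_mul]
      exact mul_le_mul hss hκ1 (abs_nonneg _) (by positivity)
    rw [abs_le] at t1 t2 t3 t4 ⊢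
    constructor <;> nlinarith [t1.1, t1.2, t2.1, t2.2, t3.1, t3.2, t4.1, t4.2]
  have hb2 : |P * (∑ j, Q (b ω) i j * F.x1 w ω j) - P * (∑ j, Q (b ω') i j * F.x1 w ω' j)| ≤
      2 * m + 3 := by
    rw [← mul_sub, abs_mul, abs_of_pos hP0]
    calc P * _ ≤ P * ((2 * m + 3) * (1 / P)) := mul_le_mul_of_nonneg_left hb1 hP0.le
      _ = 2 * m + 3 := by field_simp
  unfold qlab
  push_cast
  have f1 := Int.floor_le (2 ^ (w + h) * ∑ j, Q (b ω) i j * F.x1 w ω j)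
  have f2 := Int.lt_floor_add_one (2 ^ (w + h) * ∑ j, Q (b ω) i j * F.x1 w ω j)
  have f3 := Int.floor_le (2 ^ (w + h) * ∑ j, Q (b ω') i j * F.x1 w ω' j)
  have f4 := Int.lt_floor_add_one (2 ^ (w + h) * ∑ j, Q (b ω') i j * F.x1 w ω' j)
  rw [← hP] at f1 f2 f3 f4 ⊢
  rw [abs_le] at hb2 ⊢
  constructor <;> linarith [hb2.1, hb2.2]

/-- The entropy of the label of the flat. -/
lemma quo_ent (F : Fam m J) {β υ : Type} (b : F.Ω → β) {w K h k' : ℕ} (hwK : w + K ≤ J)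
    (hhK : h ≤ K) (Q : β → Fin k' → Fin m → ℝ) (q : β → Fin k' → ℝ)
    (hQ : ∀ β' i j, |Q β' i j| ≤ 1)
    (hq : ∀ ω, 0 < F.p ω → ∀ i, |∑ j, Q (b ω) i j * F.d ω j - q (b ω) i| ≤ 1 / 2 ^ h)
    (W : F.Ω → υ)
    (hW : Det F.p W (fun ω => (b ω, F.T1 (w + K) ω, F.X (w + h) ω))) :
    CH F.p (qlab F b w h Q) W ≤ k' * Real.log (2 * (2 * m + 4) + 1) := by
  have h0 := F.isLaw.nonneg
  have key := CH_le_vec h0 F.isLaw.sum_one (qlab F b w h Q) W
    (fun _ => (2 * m + 4 : ℝ)) (by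
      intro ω ω' h1 h2 hh i
      have := hW ω ω' h1 h2 hh
      simp only [Prod.mk.injEq] at this
      exact quo_close F b hwK hhK Q q hQ hq h1 h2 this.1 this.2.1 this.2.2 i)
  rwa [Ex_const F.isLaw.sum_one] at key

theorem quo_thm (hS : SLSat2Stmt) : QUOStmt := by
  classical
  intro m n k k' hkn
  obtain ⟨C0, hC0, hs⟩ := hS m n k hkn
  have hm : (0 : ℝ) ≤ m := Nat.cast_nonneg m
  have hk' : (0 : ℝ) ≤ k' := Nat.cast_nonneg k'
  have hn : (0 : ℝ) ≤ n := Nat.cast_nonneg n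
  have hkk : (0 : ℝ) ≤ k := Nat.cast_nonneg k
  set C1 : ℝ := k' * Real.log (2 * (2 * m + 4) + 1) with hC1
  have hC1' : 0 ≤ C1 := mul_nonneg hk' (Real.log_nonneg (by linarith))
  refine ⟨C0 + C1 + n * C1, by positivity, ?_⟩
  intro J F β b w K a h e ρ Q q hwK haK hhK he hb hQ hq hρ hρ1 hconc
  have h0 := F.isLaw.nonneg
  have hXh : ∀ ω ω', F.X (w + K) ω = F.X (w + K) ω' → F.X (w + h) ω = F.X (w + h) ω' := by
    intro ω ω' hh
    funext j
    have h1 : fl (w + K) (F.x ω) j = fl (w + K) (F.x ω') j := congrFun hh j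
    show fl (w + h) (F.x ω) j = fl (w + h) (F.x ω') j
    have e : ∀ x : Fin m → ℝ, fl (w + h) x j = fl (w + K) x j / 2 ^ (K - h) := by
      intro x
      unfold fl rd
      have e1 : (2 : ℝ) ^ (w + K) * x j = 2 ^ (w + h) * x j * ((2 ^ (K - h) : ℕ) : ℝ) := by
        push_cast
        have : w + K = (w + h) + (K - h) := by omega
        rw [this, pow_add]
        ring
      have e2 := Int.floor_div_natCast (k := ℝ) (2 ^ (w + K) * x j) (2 ^ (K - h))
      have e3 : (2 : ℝ) ^ (w + K) * x j / ((2 ^ (K - h) : ℕ) : ℝ) = 2 ^ (w + h) * x j := by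
        rw [e1]
        have : (((2 ^ (K - h) : ℕ) : ℝ)) ≠ 0 := by positivity
        field_simp
      rw [e3] at e2
      rw [e2]
      push_cast
      rfl
    rw [e, e, h1]
  have c1 : CH F.p (qlab F b w h Q) (fun ω => (b ω, F.T1 (w + K) ω, F.X (w + h) ω)) ≤ C1 :=
    quo_ent F b hwK hhK Q q hQ hq _ (fun _ _ _ _ hh => hh)
  have c2 : CH F.p (qlab F b w h Q) (fun ω => (b ω, F.T1 (w + K) ω, F.X (w + K) ω)) ≤ C1 :=
    quo_ent F b hwK hhK Q q hQ hq _ (fun ω ω' _ _ hh => by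
      simp only [Prod.mk.injEq] at hh ⊢
      exact ⟨hh.1, hh.2.1, hXh ω ω' hh.2.2⟩)
  refine ⟨c1.trans (by nlinarith [mul_nonneg hn hC1']), ?_⟩
  have key := hs J F β _ b (qlab F b w h Q) w K a e ρ hwK haK he (by
    intro ω ω' h1 h2 hh
    have hb' := hb ω ω' h1 h2 hh
    simp only [slam, Prod.mk.injEq, Fam.l] at hh
    obtain ⟨⟨hu, hd⟩, _, hT⟩ := hh
    refine Prod.ext hb' ?_
    funext i
    show ⌊2 ^ (w + h) * ∑ j, Q (b ω) i j * F.x1 w ω j⌋ =
      ⌊2 ^ (w + h) * ∑ j, Q (b ω') i j * F.x1 w ω' j⌋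
    have : ∀ j, F.x1 w ω j = F.x1 w ω' j := by
      intro j
      unfold Fam.x1
      rw [hu, hd, hT]
    simp only [this, hb']) hρ hρ1 hconc
  set L : ℝ := Real.log (1 / ((n : ℝ) ^ (k + 1) * ρ ^ (n - (k + 1)))) with hL
  have hL0 : 0 ≤ L := by
    refine Real.log_nonneg ?_
    have hn' : (0 : ℝ) < n := by
      have : 0 < n := by omega
      exact_mod_cast this
    rw [le_div_iff₀ (by positivity)]
    linarith
  set I : ℝ := CH F.p (F.D K) b -
    CH F.p (F.D K) (fun ω => (b ω, F.T1 (w + K) ω, F.X (w + K) ω)) with hI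
  set I2 : ℝ := CH F.p (F.D K) b -
    CH F.p (F.D K) (fun ω => ((b ω, qlab F b w h Q ω), F.T1 (w + K) ω, F.X (w + K) ω)) with hI2
  have hI12 : I2 ≤ I + C1 := by
    have d1 := CH_le_add h0 (F.D K) (qlab F b w h Q)
      (fun ω => (b ω, F.T1 (w + K) ω, F.X (w + K) ω))
    have d2 : CH F.p (F.D K) (fun ω => (qlab F b w h Q ω, b ω, F.T1 (w + K) ω,
        F.X (w + K) ω)) ≤ CH F.p (F.D K)
        (fun ω => ((b ω, qlab F b w h Q ω), F.T1 (w + K) ω, F.X (w + K) ω)) := by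
      refine CH_mono_cond h0 (fun ω ω' _ _ hh => ?_)
      simp only [Prod.mk.injEq] at hh ⊢
      tauto
    rw [hI, hI2]
    linarith
  have hlog : 0 ≤ Real.log 2 := Real.log_nonneg (by norm_num)
  have ha : (0 : ℝ) ≤ (k + 2) * (a * Real.log 2) := by positivity
  have hfrac : (n * I2 + Real.log 2) / L ≤ (n * (I + (C0 + C1 + n * C1)) + Real.log 2) / L := by
    refine div_le_div_of_nonneg_right ?_ hL0
    have : n * I2 ≤ n * (I + (C0 + C1 + n * C1)) := by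
      refine mul_le_mul_of_nonneg_left ?_ hn
      nlinarith [mul_nonneg hn hC1']
    linarith
  have hmul : (k + 2) * (a * Real.log 2) *
      (1 - (n * (I + (C0 + C1 + n * C1)) + Real.log 2) / L) ≤
      (k + 2) * (a * Real.log 2) * (1 - (n * I2 + Real.log 2) / L) :=
    mul_le_mul_of_nonneg_left (by linarith) ha
  have hnI : n * I2 ≤ n * (I + C1) := mul_le_mul_of_nonneg_left hI12 hn
  nlinarith [key, hmul, hnI]

end Pool.KSAT
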