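import Pool.Agent.H7.KSAT.Defs

/-!
# Maximal minors of a family of vectors
-/

set_option autoImplicit false

namespace Pool.KSAT

open Finset Real

lemma mn_det_zero_of_col {n m k : ℕ} (Δ : Fin n → Fin m → ℝ) (I : Fin k → Fin n)
    (κ : Fin k → Fin m) {a b : Fin k} (hab : a ≠ b) (h : I a = I b) : (mn Δ I κ).det = 0 := by
  refine Matrix.det_zero_of_column_eq hab ?_
  intro i
  simp [mn, h]

lemma mn_det_zero_of_row {n m k : ℕ} (Δ : Fin n → Fin m → ℝ) (I : Fin k → Fin n)
    (κ : Fin k → Fin m) {a b : Fin k} (hab : a ≠ b) (h : κ a = κ b) : (mn Δ I κ).det = 0 := by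
  refine Matrix.det_zero_of_row_eq hab ?_
  funext i
  simp [mn, h]

lemma mn_injective {n m k : ℕ} (Δ : Fin n → Fin m → ℝ) (I : Fin k → Fin n)
    (κ : Fin k → Fin m) (h : (mn Δ I κ).det ≠ 0) :
    Function.Injective I ∧ Function.Injective κ := by
  constructor
  · intro a b hab
    by_contra hne
    exact h (mn_det_zero_of_col Δ I κ hne hab)
  · intro a b hab
    by_contra hne
    exact h (mn_det_zero_of_row Δ I κ hne hab)

lemma mn_le {n m k : ℕ} (Δ : Fin n → Fin m → ℝ) (I : Fin k → Fin n)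
    (κ : Fin k → Fin m) (h : (mn Δ I κ).det ≠ 0) : k ≤ n ∧ k ≤ m := by
  obtain ⟨h1, h2⟩ := mn_injective Δ I κ h
  constructor
  · simpa using Fintype.card_le_of_injective I h1
  · simpa using Fintype.card_le_of_injective κ h2

lemma isMax_det_pos {n m k : ℕ} {r : ℝ} (Δ : Fin n → Fin m → ℝ) (I : Fin k → Fin n)
    (κ : Fin k → Fin m) (hr : 0 < r) (h : IsMax r Δ k I κ) : 0 < |(mn Δ I κ).det| := by
  have h0 := h 0 Fin.elim0 Fin.elim0
  rw [Matrix.det_isEmpty, abs_one, one_mul, pow_zero, mul_one] at h0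
  exact lt_of_lt_of_le (pow_pos hr k) h0

lemma exists_isMax {n m : ℕ} (r : ℝ) (hr : 0 < r) (Δ : Fin n → Fin m → ℝ) :
    ∃ k, ∃ (I : Fin k → Fin n) (κ : Fin k → Fin m), IsMax r Δ k I κ := by
  classical
  let T := Σ k : Fin (n + 1), (Fin (k : ℕ) → Fin n) × (Fin (k : ℕ) → Fin m)
  let f : T → ℝ := fun x => |(mn Δ x.2.1 x.2.2).det| / r ^ (x.1 : ℕ)
  have hne : (Finset.univ : Finset T).Nonempty :=
    ⟨⟨⟨0, Nat.succ_pos n⟩, (fun i => i.elim0, fun i => i.elim0)⟩, Finset.mem_univ _⟩
  obtain ⟨x, -, hx⟩ := Finset.exists_max_image Finset.univ f hne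
  refine ⟨(x.1 : ℕ), x.2.1, x.2.2, ?_⟩
  intro k' I' κ'
  by_cases hd : (mn Δ I' κ').det = 0
  · rw [hd, abs_zero, zero_mul]
    positivity
  · have hk' : k' ≤ n := (mn_le Δ I' κ' hd).1
    have h1 := hx ⟨⟨k', Nat.lt_succ_of_le hk'⟩, (I', κ')⟩ (Finset.mem_univ _)
    have h2 : |(mn Δ I' κ').det| / r ^ k' ≤ |(mn Δ x.2.1 x.2.2).det| / r ^ (x.1 : ℕ) := h1
    rw [div_le_div_iff₀ (pow_pos hr _) (pow_pos hr _)] at h2
    exact h2

theorem rk_thm : RkStmt := by
  intro n m r Δ hr
  have h := exists_isMax r hr Δ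
  have hs : ∃ (I : Fin (rk r Δ) → Fin n) (κ : Fin (rk r Δ) → Fin m),
      IsMax r Δ (rk r Δ) I κ := by
    classical
    have hrk : rk r Δ = Nat.find h := by
      unfold rk
      rw [dif_pos h]
    rw [hrk]
    exact Nat.find_spec h
  obtain ⟨I, κ, hI⟩ := hs
  have hp := isMax_det_pos Δ I κ hr hI
  have hle := mn_le Δ I κ (abs_pos.mp hp)
  exact ⟨hle.1, hle.2, I, κ, hI⟩

lemma mn_updateRow {n m k : ℕ} (Δ : Fin n → Fin m → ℝ) (I : Fin k → Fin n)
    (κ : Fin k → Fin m) (i : Fin k) (j : Fin m) :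
    (mn Δ I κ).updateRow i (fun l => Δ (I l) j) = mn Δ I (Function.update κ i j) := by
  ext a b
  by_cases h : a = i
  · subst h
    simp [mn, Matrix.updateRow_self]
  · rw [Matrix.updateRow_ne h]
    simp [mn, Function.update_of_ne h]

lemma mn_updateCol {n m k : ℕ} (Δ : Fin n → Fin m → ℝ) (I : Fin k → Fin n)
    (κ : Fin k → Fin m) (l : Fin k) (i : Fin n) :
    (mn Δ I κ).updateCol l (fun a => Δ i (κ a)) = mn Δ (Function.update I l i) κ := by
  ext a b
  by_cases h : b = l
  · subst h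
    simp [mn, Matrix.updateCol_self]
  · rw [Matrix.updateCol_ne h]
    simp [mn, Function.update_of_ne h]

lemma mn_append {n m k : ℕ} (Δ : Fin n → Fin m → ℝ) (I : Fin k → Fin n)
    (κ : Fin k → Fin m) (i : Fin n) (j : Fin m) :
    (mn Δ (Fin.append I (fun _ : Fin 1 => i)) (Fin.append κ (fun _ : Fin 1 => j))).submatrix
      finSumFinEquiv finSumFinEquiv =
      Matrix.fromBlocks (mn Δ I κ) (Matrix.of fun a _ => Δ i (κ a))
        (Matrix.of fun _ b => Δ (I b) j) (Matrix.of fun _ _ => Δ i j) := by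
  ext a b
  rcases a with a | a <;> rcases b with b | b <;>
    simp [mn, Matrix.fromBlocks, Fin.append_left, Fin.append_right]

lemma det_mn_append {n m k : ℕ} (Δ : Fin n → Fin m → ℝ) (I : Fin k → Fin n)
    (κ : Fin k → Fin m) (i : Fin n) (j : Fin m) (h : (mn Δ I κ).det ≠ 0) :
    (mn Δ (Fin.append I (fun _ : Fin 1 => i)) (Fin.append κ (fun _ : Fin 1 => j))).det =
      (mn Δ I κ).det * (Δ i j - ∑ l, ((mn Δ I κ)⁻¹.mulVec (fun a => Δ i (κ a))) l * Δ (I l) j) := by
  have hu : IsUnit (mn Δ I κ).det := isUnit_iff_ne_zero.mpr h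
  let _ : Invertible (mn Δ I κ) := Matrix.invertibleOfIsUnitDet _ hu
  rw [← Matrix.det_submatrix_equiv_self finSumFinEquiv
    (mn Δ (Fin.append I (fun _ : Fin 1 => i)) (Fin.append κ (fun _ : Fin 1 => j))),
    mn_append, Matrix.det_fromBlocks₁₁]
  congr 1
  rw [Matrix.det_unique, Matrix.sub_apply, Matrix.invOf_eq_nonsing_inv]
  congr 1
  rw [Matrix.mul_assoc, Matrix.mul_apply]
  refine Finset.sum_congr rfl fun l _ => ?_
  rw [Matrix.of_apply, mul_comm, Matrix.mul_apply]
  congr 1

theorem lin_thm : LinStmt := by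
  intro n m k r Δ I κ hr hM
  have hp := isMax_det_pos Δ I κ hr hM
  have hd : (mn Δ I κ).det ≠ 0 := abs_pos.mp hp
  obtain ⟨hI, hκ⟩ := mn_injective Δ I κ hd
  refine ⟨hd, hI, hκ, ?_, ?_, ?_⟩
  · intro i j
    cases k with
    | zero => exact i.elim0
    | succ k =>
      rw [Matrix.adjugate_fin_succ_eq_det_submatrix, abs_mul, abs_pow, abs_neg, abs_one, one_pow,
        one_mul]
      have h1 := hM k (I ∘ i.succAbove) (κ ∘ j.succAbove)
      have h2 : (mn Δ I κ).submatrix j.succAbove i.succAbove =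
          mn Δ (I ∘ i.succAbove) (κ ∘ j.succAbove) := by
        ext a b
        simp [mn]
      rw [h2]
      rw [pow_succ, ← mul_assoc, mul_right_comm] at h1
      exact le_of_mul_le_mul_right h1 (pow_pos hr k)
  · intro j
    refine ⟨fun i => (mn Δ I (Function.update κ i j)).det / (mn Δ I κ).det, ?_, ?_⟩
    · intro i
      rw [abs_div, div_le_one hp]
      have h1 := hM k I (Function.update κ i j)
      exact le_of_mul_le_mul_right h1 (pow_pos hr k)
    · intro s
      have h1 := Matrix.mulVec_cramer (mn Δ I κ).transpose (fun l => Δ (I l) j)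
      have h2 : ∀ l, (mn Δ I κ).det * Δ (I l) j =
          ∑ i, (mn Δ I (Function.update κ i j)).det * Δ (I l) (κ i) := by
        intro l
        have h3 := congrFun h1 l
        rw [Matrix.det_transpose, Pi.smul_apply, smul_eq_mul] at h3
        rw [← h3]
        unfold Matrix.mulVec dotProduct
        refine Finset.sum_congr rfl fun i _ => ?_
        rw [Matrix.cramer_transpose_apply, mn_updateRow, mul_comm]
        rfl
      have h4 : ∀ l, Δ (I l) j =
          ∑ i, (mn Δ I (Function.update κ i j)).det / (mn Δ I κ).det * Δ (I l) (κ i) := by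
        intro l
        rw [eq_comm]
        calc ∑ i, (mn Δ I (Function.update κ i j)).det / (mn Δ I κ).det * Δ (I l) (κ i)
            = (∑ i, (mn Δ I (Function.update κ i j)).det * Δ (I l) (κ i)) /
              (mn Δ I κ).det := by
              rw [Finset.sum_div]
              exact Finset.sum_congr rfl fun i _ => by ring
          _ = Δ (I l) j := by
              rw [← h2 l, mul_div_cancel_left₀ _ hd]
      calc ∑ l, s l * Δ (I l) j
          = ∑ l, ∑ i, s l * ((mn Δ I (Function.update κ i j)).det / (mn Δ I κ).det *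
              Δ (I l) (κ i)) := by
            refine Finset.sum_congr rfl fun l _ => ?_
            rw [← Finset.mul_sum, ← h4 l]
        _ = ∑ i, ∑ l, s l * ((mn Δ I (Function.update κ i j)).det / (mn Δ I κ).det *
              Δ (I l) (κ i)) := Finset.sum_comm
        _ = _ := by
            refine Finset.sum_congr rfl fun i _ => ?_
            rw [Finset.mul_sum]
            exact Finset.sum_congr rfl fun l _ => by ring
  · intro i
    refine ⟨fun l => ((mn Δ I κ)⁻¹.mulVec (fun a => Δ i (κ a))) l, ?_, ?_⟩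
    · intro l
      have h1 : ((mn Δ I κ)⁻¹.mulVec (fun a => Δ i (κ a))) l =
          (mn Δ (Function.update I l i) κ).det / (mn Δ I κ).det := by
        rw [← mn_updateCol, ← Matrix.cramer_apply, Matrix.cramer_eq_adjugate_mulVec,
          Matrix.inv_def, Matrix.smul_mulVec, Pi.smul_apply, smul_eq_mul,
          Ring.inverse_eq_inv', mul_comm, div_eq_mul_inv]
      show |(mn Δ I κ)⁻¹.mulVec (fun a => Δ i (κ a)) l| ≤ 1
      rw [h1, abs_div, div_le_one hp]
      have h2 := hM k (Function.update I l i) κ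
      exact le_of_mul_le_mul_right h2 (pow_pos hr k)
    · intro j
      have h1 := det_mn_append Δ I κ i j hd
      have h2 := hM (k + 1) (Fin.append I (fun _ : Fin 1 => i)) (Fin.append κ (fun _ : Fin 1 => j))
      rw [h1, abs_mul] at h2
      rw [pow_succ, mul_comm (r ^ k) r, ← mul_assoc] at h2
      have h3 := le_of_mul_le_mul_right h2 (pow_pos hr k)
      exact le_of_mul_le_mul_left h3 hp

end Pool.KSAT
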